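import Pool.Agent.Helper35.GT.Defs

/-!
# Systems of Frobenii with Hodge cocharacters, the Hodge coniveau of the tensor powers

`V = ⊕ V_b` has a basis of letters `l = (b, j)` which are weight vectors of a maximal torus `T` of the
Zariski closure `G` of the Frobenii. A cocharacter of `T` is given by its values `s l` on the weights of the
letters. `S` is the set of the cocharacters of `T` which are conjugate to the Hodge cocharacter (under `G` and
under the automorphisms of the field of coefficients).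
-/

set_option autoImplicit false

namespace Pool.Agent.Helper71.C2

open Polynomial Pool.Agent.Helper48.SP Pool.Agent.Helper48.GC8 Pool.Agent.Helper35.GT

variable {B : Type} [Fintype B] [DecidableEq B] {k : B → Blk}

/-- The matrix `g` is in the Zariski closure of the set of the Frobenii. -/
def InClosure (𝓕 : Set (Frob k)) (g : Matrix (Ind k) (Ind k) ℂ) : Prop :=
  ∀ f : MvPolynomial (Ind k × Ind k) ℂ,
    (∀ z ∈ 𝓕, MvPolynomial.eval (fun x => z.2 x.1 x.2) f = 0) →
      MvPolynomial.eval (fun x => g x.1 x.2) f = 0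

/-- The Frobenius `z = (q, M)` is `h D N h⁻¹` with `h` and `D = diag d` in the Zariski closure of the
Frobenii and `N` unipotent, `N D = D N`; its characteristic polynomial on `V_b` is that of `D`. -/
def IsConj (𝓕 : Set (Frob k)) (z : Frob k) (d : Ind k → ℂ) : Prop :=
  InClosure 𝓕 (Matrix.diagonal d) ∧ (∀ b, blockPoly z.2 b = ∏ j, (X - C (d ⟨b, j⟩))) ∧
    ∃ h h' N : Matrix (Ind k) (Ind k) ℂ, InClosure 𝓕 h ∧ h' * h = 1 ∧ IsNilpotent (N - 1) ∧
      N * Matrix.diagonal d = Matrix.diagonal d * N ∧ z.2 * h = h * (Matrix.diagonal d * N)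

/-- The Newton cocharacter of `diag d` at the valuation ring `A` is the mean, with the weights
`c t`, of the elements `t` of `S`: the valuation of `d l` is that of `q` to the power
`(∑ c t * t l) / ∑ c t`. -/
def IsMean (S : Finset (Ind k → ℕ)) (c : (Ind k → ℕ) → ℕ) (q : ℕ) (d : Ind k → ℂ)
    (A : ValuationSubring ℂ) : Prop :=
  0 < ∑ t ∈ S, c t ∧
    ∀ l, A.valuation (d l) ^ (∑ t ∈ S, c t) = A.valuation (q : ℂ) ^ (∑ t ∈ S, c t * t l)

/-- A system of Frobenii with the set `S` of Hodge cocharacters: the Hodge slopes of the letters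
belong to `S`; every `s` in `S` has the same values on every block up to the order; for
every Frobenius and every `s` in `S` there is a conjugate `D = diag d` in `T` whose Newton cocharacter at
every place over `q` is a mean of elements of `S`, and at one place a mean with a
positive weight of `s`. -/
structure IsHodgeSystem (f₀ : ℕ) (𝓕 : Set (Frob k)) (S : Finset (Ind k → ℕ)) : Prop extends
    IsSystem f₀ 𝓕 where
  self : (fun l => sl l) ∈ S
  types : ∀ s ∈ S, ∀ b, ∃ σ : Equiv.Perm (Fin (k b).dim), ∀ j, s ⟨b, j⟩ = (k b).slope (σ j)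
  newton : ∀ z ∈ 𝓕, ∀ s ∈ S, ∃ d : Ind k → ℂ, IsConj 𝓕 z d ∧
    (∀ A : ValuationSubring ℂ, A.valuation (z.1 : ℂ) < 1 → ∃ c, IsMean S c z.1 d A) ∧
    ∃ A : ValuationSubring ℂ, A.valuation (z.1 : ℂ) < 1 ∧ ∃ c, IsMean S c z.1 d A ∧ 0 < c s

/-- `U ⊆ V^(⊗ m)` is a subrepresentation of degree `i` all of whose Hodge slopes, for all the Hodge
cocharacters in `S`, are at least `ν`. -/
structure IsHodge (𝓕 : Set (Frob k)) (S : Finset (Ind k → ℕ)) (m i ν : ℕ)
    (U : Submodule ℂ ((Fin m → Ind k) → ℂ)) : Prop where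
  degree : ∀ u ∈ U, ∀ y, u y ≠ 0 → ∑ p, (k (y p).1).wt = i
  stable : ∀ z ∈ 𝓕, ∀ u ∈ U, tensorPower z.2 u ∈ U
  hodge : ∀ s ∈ S, ∀ u ∈ U, ∀ y, u y ≠ 0 → ν ≤ ∑ p, s (y p)

/-- The Hodge coniveau: the span of all subrepresentations `U` of degree `i` of `V^(⊗ m)` of Hodge
coniveau at least `ν`. -/
noncomputable def hodgeConiveau (𝓕 : Set (Frob k)) (S : Finset (Ind k → ℕ)) (m i ν : ℕ) :
    Submodule ℂ ((Fin m → Ind k) → ℂ) := sSup {U | IsHodge 𝓕 S m i ν U}

end Pool.Agent.Helper71.C2
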