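import Pool.Agent.Helper71.C2.Defs
import Pool.Agent.Helper35.GT.Part1

/-!
# C2: at an ordinary place the Newton cocharacter is a Hodge cocharacter
-/

set_option autoImplicit false

namespace Pool.Agent.Helper71.C2

open Polynomial Pool.Agent.Helper48.SP Pool.Agent.Helper48.GC8 Pool.Agent.Helper35.GT Finset

variable {B : Type} [Fintype B] [DecidableEq B] {k : B → Blk} {f₀ : ℕ}

/-- Sums of slopes over sets of letters at a break. -/
private theorem sum_break {κ : Blk} (hm : Monotone κ.slope) {j : ℕ} (hb : IsBreak κ j)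
    {R : Finset (Fin κ.dim)} (hR : R.card = j) :
    κ.nu j + (R \ univ.filter fun i : Fin κ.dim => (i : ℕ) < j).card ≤ ∑ i ∈ R, κ.slope i := by
  classical
  obtain ⟨h0, h, hs⟩ := hb
  set J : Finset (Fin κ.dim) := univ.filter fun i : Fin κ.dim => (i : ℕ) < j with hJ
  have hJc : J.card = j := by
    have h1 : J.card = (univ : Finset (Fin j)).card := by
      symm
      refine Finset.card_bij (fun i _ => Fin.castLE h.le i) ?_ ?_ ?_
      · intro i _
        simp [hJ]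
      · intro a _ b _ hab
        exact Fin.castLE_injective h.le hab
      · intro i hi
        exact ⟨⟨i, by simpa [hJ] using hi⟩, mem_univ _, rfl⟩
    rw [h1, card_univ, Fintype.card_fin]
  have hnu : κ.nu j = ∑ i ∈ J, κ.slope i := by
    rw [nu_eq, hJ, Finset.sum_filter]
  have hc : (R \ J).card = (J \ R).card := by
    have h1 := Finset.card_sdiff_add_card_inter R J
    have h2 := Finset.card_sdiff_add_card_inter J R
    rw [Finset.inter_comm] at h2
    omega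
  have e1 : ∑ i ∈ R, κ.slope i = ∑ i ∈ R \ J, κ.slope i + ∑ i ∈ R ∩ J, κ.slope i := by
    rw [add_comm, Finset.sum_inter_add_sum_sdiff R J]
  have e2 : ∑ i ∈ J, κ.slope i = ∑ i ∈ J \ R, κ.slope i + ∑ i ∈ R ∩ J, κ.slope i := by
    rw [Finset.inter_comm R J, add_comm, Finset.sum_inter_add_sum_sdiff J R]
  have i1 : (R \ J).card * κ.slope ⟨j, h⟩ ≤ ∑ i ∈ R \ J, κ.slope i := by
    rw [← smul_eq_mul]
    refine Finset.card_nsmul_le_sum _ _ _ fun i hi => hm ?_
    have h3 := (Finset.mem_sdiff.1 hi).2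
    rw [hJ, Finset.mem_filter] at h3
    rw [Fin.le_def]
    simp only
    by_contra hcon
    exact h3 ⟨mem_univ _, by omega⟩
  have i2 : ∑ i ∈ J \ R, κ.slope i ≤ (J \ R).card * κ.slope ⟨j - 1, by omega⟩ := by
    rw [← smul_eq_mul]
    refine Finset.sum_le_card_nsmul _ _ _ fun i hi => hm ?_
    have h3 := (Finset.mem_sdiff.1 hi).1
    rw [hJ, Finset.mem_filter] at h3
    rw [Fin.le_def]
    simp only
    omega
  have i3 : (R \ J).card * (κ.slope ⟨j - 1, by omega⟩ + 1) ≤ (R \ J).card * κ.slope ⟨j, h⟩ :=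
    Nat.mul_le_mul_left _ hs
  rw [hnu, e1, e2]
  rw [hc] at i1 i3 ⊢
  rw [mul_add, mul_one] at i3
  omega

/-- The same for a permutation of the slopes; the equality case. -/
private theorem sum_perm {κ : Blk} (hm : Monotone κ.slope) {j : ℕ} (hb : IsBreak κ j)
    {R : Finset (Fin κ.dim)} (hR : R.card = j) (σ : Equiv.Perm (Fin κ.dim)) :
    κ.nu j ≤ ∑ i ∈ R, κ.slope (σ i) ∧
      (∑ i ∈ R, κ.slope (σ i) = κ.nu j →
        ∀ i, i ∈ R ↔ κ.slope (σ i) < κ.slope ⟨j, hb.2.1⟩) := by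
  classical
  have h1 := sum_break hm hb (R := R.map σ.toEmbedding) (by rw [card_map, hR])
  rw [Finset.sum_map] at h1
  simp only [Equiv.coe_toEmbedding] at h1
  refine ⟨by omega, fun h2 i => ?_⟩
  have h3 : (R.map σ.toEmbedding \ univ.filter fun i : Fin κ.dim => (i : ℕ) < j).card = 0 := by
    omega
  rw [Finset.card_eq_zero, Finset.sdiff_eq_empty_iff_subset] at h3
  have hj : j < κ.dim := hb.2.1
  have hJc : (univ.filter fun i : Fin κ.dim => (i : ℕ) < j).card ≤ j := by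
    have h4 : (univ.filter fun i : Fin κ.dim => (i : ℕ) < j) ⊆
        (univ : Finset (Fin j)).image (Fin.castLE hj.le) := by
      intro x hx
      rw [Finset.mem_filter] at hx
      exact Finset.mem_image.2 ⟨⟨x, hx.2⟩, mem_univ _, rfl⟩
    refine (Finset.card_le_card h4).trans (Finset.card_image_le.trans ?_)
    rw [card_univ, Fintype.card_fin]
  have h5 := Finset.eq_of_subset_of_card_le h3 (by rw [card_map, hR]; exact hJc)
  have h6 : i ∈ R ↔ ((σ i : Fin κ.dim) : ℕ) < j := by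
    have h7 : σ i ∈ R.map σ.toEmbedding ↔ i ∈ R := by
      simp
    rw [← h7, h5]
    simp
  rw [h6]
  obtain ⟨h0, h, hs⟩ := hb
  constructor
  · intro h8
    refine lt_of_le_of_lt (hm ?_) hs
    rw [Fin.le_def]
    simp only
    omega
  · intro h8
    by_contra h9
    refine absurd (hm (a := ⟨j, h⟩) (b := σ i) ?_) (not_le.2 h8)
    rw [Fin.le_def]
    simp only
    omega

private theorem unit_of_not_dvd {A : ValuationSubring ℂ} {p : ℕ} (hp : p.Prime)
    (hv : A.valuation (p : ℂ) < 1) {a : ℤ} (ha : ¬ (p : ℤ) ∣ a) : A.valuation (a : ℂ) = 1 := by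
  refine le_antisymm (int_le_one A.valuation a) (not_lt.1 fun h => ?_)
  have h1 : IsCoprime (p : ℤ) a := (Nat.prime_iff_prime_int.1 hp).coprime_iff_not_dvd.2 ha
  obtain ⟨x, y, hxy⟩ := h1
  have h2 : (1 : ℂ) = (x : ℂ) * (p : ℂ) + (y : ℂ) * (a : ℂ) := by exact_mod_cast hxy.symm
  have h3 : A.valuation (1 : ℂ) < 1 := by
    rw [h2]
    refine A.valuation.map_add_lt ?_ ?_
    · rw [map_mul]
      exact lt_of_le_of_lt (mul_le_of_le_one_left' (int_le_one A.valuation x)) hv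
    · rw [map_mul]
      exact lt_of_le_of_lt (mul_le_of_le_one_left' (int_le_one A.valuation y)) h
  rw [map_one] at h3
  exact lt_irrefl _ h3

/-- At a break of an ordinary Frobenius some product of eigenvalues has the valuation of the Hodge
polygon. -/
private theorem exists_set {𝓕 : Set (Frob k)} (hS : IsSystem f₀ 𝓕) {z : Frob k}
    (hz : z ∈ 𝓕) (ho : IsOrdinary z) {d : Ind k → ℂ} {b : B}
    (hd : blockPoly z.2 b = ∏ j, (X - C (d ⟨b, j⟩))) {A : ValuationSubring ℂ}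
    (hA : A.valuation (z.1 : ℂ) < 1) {j : ℕ} (hb : IsBreak (k b) j) :
    ∃ R : Finset (Fin (k b).dim), R.card = j ∧
      A.valuation (z.1 : ℂ) ^ (k b).nu j ≤ A.valuation (∏ i ∈ R, d ⟨b, i⟩) := by
  classical
  obtain ⟨p, f, hp, hf1, hf2, hzp⟩ := hS.bounded z hz
  have hvp : A.valuation (p : ℂ) < 1 := by
    by_contra hcon
    have h1 : A.valuation (p : ℂ) = 1 := by
      refine le_antisymm ?_ (not_lt.1 hcon)
      have := int_le_one A.valuation (p : ℤ)
      exact_mod_cast this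
    rw [hzp, Nat.cast_pow, map_pow, h1, one_pow] at hA
    exact lt_irrefl _ hA
  obtain ⟨P, hP, hdiv⟩ := hS.above z hz b
  have hj : j < (k b).dim := hb.2.1
  obtain ⟨a, ha⟩ := hdiv j hj.le
  have hpa : ¬ (p : ℤ) ∣ a := by
    rintro ⟨c, rfl⟩
    refine ho b j hb P hP p hp (by rw [hzp]; exact dvd_pow_self p (by omega)) ?_
    rw [ha]
    exact ⟨c, by ring⟩
  have hva := unit_of_not_dvd hp hvp hpa
  have h1 := coeff_prod (fun i : Fin (k b).dim => d ⟨b, i⟩) (k := j)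
    (by rw [Fintype.card_fin]; exact hj.le)
  rw [← hd, ← hP, coeff_map, Fintype.card_fin, ha] at h1
  have h2 : A.valuation (∑ t ∈ powersetCard j univ, ∏ i ∈ t, d ⟨b, i⟩) =
      A.valuation (z.1 : ℂ) ^ (k b).nu j := by
    have h3 : (∑ t ∈ powersetCard j univ, ∏ i ∈ t, d ⟨b, i⟩ : ℂ) =
        (-1) ^ j * ((z.1 : ℂ) ^ (k b).nu j * (a : ℂ)) := by
      have h4 : (-1 : ℂ) ^ j * (-1) ^ j = 1 := by rw [← mul_pow]; simp
      simp only [eq_intCast, Int.cast_mul, Int.cast_pow, Int.cast_natCast] at h1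
      rw [h1, ← mul_assoc, h4, one_mul]
    rw [h3, map_mul, map_pow, Valuation.map_neg, map_one, one_pow, one_mul, map_mul, map_pow, hva,
      mul_one]
  by_contra hcon
  push Not at hcon
  have h4 : A.valuation (∑ t ∈ powersetCard j univ, ∏ i ∈ t, d ⟨b, i⟩) <
      A.valuation (z.1 : ℂ) ^ (k b).nu j := by
    refine A.valuation.map_sum_lt ?_ fun t ht => hcon t (Finset.mem_powersetCard.1 ht).2
    refine pow_ne_zero _ ((Valuation.ne_zero_iff _).2 ?_)
    rw [hzp]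
    exact Nat.cast_ne_zero.2 (pow_ne_zero _ hp.ne_zero)
  rw [h2] at h4
  exact lt_irrefl _ h4

/-- At an ordinary place all the Hodge cocharacters of a mean agree. -/
theorem slopes_eq (hk : ∀ b, Monotone (k b).slope) {𝓕 : Set (Frob k)} {S : Finset (Ind k → ℕ)}
    (hS : IsHodgeSystem f₀ 𝓕 S) {z : Frob k} (hz : z ∈ 𝓕) (ho : IsOrdinary z) {d : Ind k → ℂ}
    (hd : ∀ b, blockPoly z.2 b = ∏ j, (X - C (d ⟨b, j⟩))) {A : ValuationSubring ℂ}
    (hA : A.valuation (z.1 : ℂ) < 1) {c : (Ind k → ℕ) → ℕ} (hc : IsMean S c z.1 d A)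
    {s : Ind k → ℕ} (hs : s ∈ S) (hcs : 0 < c s) (l : Ind k) :
    A.valuation (d l) = A.valuation (z.1 : ℂ) ^ s l := by
  classical
  obtain ⟨hC, hval⟩ := hc
  set Cc := ∑ t ∈ S, c t with hCc
  have hq0 : A.valuation (z.1 : ℂ) ≠ 0 := by
    obtain ⟨p, f, hp, hf1, hf2, hzp⟩ := hS.bounded z hz
    refine (Valuation.ne_zero_iff _).2 ?_
    rw [hzp]
    exact Nat.cast_ne_zero.2 (pow_ne_zero _ hp.ne_zero)
  have hq0' : 0 < A.valuation (z.1 : ℂ) := zero_lt_iff.2 hq0
  have key : ∀ (b : B) (j : ℕ) (hb : IsBreak (k b) j), ∃ R : Finset (Fin (k b).dim),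
      ∀ t ∈ S, 0 < c t → ∀ i, i ∈ R ↔ t ⟨b, i⟩ < (k b).slope ⟨j, hb.2.1⟩ := by
    intro b j hb
    obtain ⟨R, hR, hle⟩ := exists_set hS.toIsSystem hz ho (hd b) hA hb
    refine ⟨R, ?_⟩
    have h1 : A.valuation (∏ i ∈ R, d ⟨b, i⟩) ^ Cc =
        A.valuation (z.1 : ℂ) ^ (∑ t ∈ S, c t * ∑ i ∈ R, t ⟨b, i⟩) := by
      rw [map_prod, ← Finset.prod_pow]
      have h2 : ∀ i ∈ R, A.valuation (d ⟨b, i⟩) ^ Cc =
          A.valuation (z.1 : ℂ) ^ (∑ t ∈ S, c t * t ⟨b, i⟩) := fun i _ => hval ⟨b, i⟩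
      rw [Finset.prod_congr rfl h2, Finset.prod_pow_eq_pow_sum, Finset.sum_comm]
      congr 1
      exact Finset.sum_congr rfl fun t _ => by rw [Finset.mul_sum]
    have h3 : A.valuation (z.1 : ℂ) ^ (Cc * (k b).nu j) ≤
        A.valuation (z.1 : ℂ) ^ (∑ t ∈ S, c t * ∑ i ∈ R, t ⟨b, i⟩) := by
      rw [← h1, mul_comm, pow_mul]
      exact pow_le_pow_left₀ zero_le hle _
    have h4 : ∑ t ∈ S, c t * ∑ i ∈ R, t ⟨b, i⟩ ≤ Cc * (k b).nu j :=
      (pow_le_pow_iff_right_of_lt_one₀ hq0' hA).1 h3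
    have h5 : ∀ t ∈ S, c t * (k b).nu j ≤ c t * ∑ i ∈ R, t ⟨b, i⟩ := by
      intro t ht
      obtain ⟨σ, hσ⟩ := hS.types t ht b
      refine Nat.mul_le_mul_left _ ?_
      have := (sum_perm (hk b) hb hR σ).1
      rwa [← Finset.sum_congr rfl fun i _ => hσ i] at this
    rw [hCc, Finset.sum_mul] at h4
    intro t ht hct
    have h6 : c t * ∑ i ∈ R, t ⟨b, i⟩ = c t * (k b).nu j := by
      have h7 := (Finset.sum_eq_sum_iff_of_le h5).1 (le_antisymm (Finset.sum_le_sum h5) h4)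
      exact (h7 t ht).symm
    have h8 : ∑ i ∈ R, t ⟨b, i⟩ = (k b).nu j := Nat.eq_of_mul_eq_mul_left hct h6
    obtain ⟨σ, hσ⟩ := hS.types t ht b
    intro i
    rw [hσ i]
    refine (sum_perm (hk b) hb hR σ).2 ?_ i
    rw [← h8]
    exact Finset.sum_congr rfl fun i _ => (hσ i).symm
  have hle : ∀ t ∈ S, 0 < c t → ∀ t' ∈ S, 0 < c t' → ∀ l, t' l ≤ t l := by
    intro t ht hct t' ht' hct' l
    obtain ⟨b, i⟩ := l
    by_contra hcon
    push Not at hcon
    obtain ⟨σ, hσ⟩ := hS.types t ht b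
    obtain ⟨τ, hτ⟩ := hS.types t' ht' b
    have hex : ∃ n, ∃ h : n < (k b).dim, t ⟨b, i⟩ < (k b).slope ⟨n, h⟩ :=
      ⟨τ i, (τ i).2, by rw [← hτ i]; exact hcon⟩
    set j := Nat.find hex with hj
    obtain ⟨hj1, hj2⟩ := Nat.find_spec hex
    have hj0 : 0 < j := by
      by_contra h0
      have h1 : j = 0 := by omega
      have h2 : (k b).slope ⟨j, hj1⟩ ≤ (k b).slope (σ i) := hk b (by
        rw [Fin.le_def]; simp only; omega)
      rw [← hσ i] at h2
      exact absurd hj2 (not_lt.2 h2)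
    have hbr : IsBreak (k b) j := by
      refine ⟨hj0, hj1, lt_of_le_of_lt ?_ hj2⟩
      have h1 := Nat.find_min hex (m := j - 1) (by omega)
      push Not at h1
      exact h1 (by omega)
    obtain ⟨R, hR⟩ := key b j hbr
    have h1 : i ∈ R := (hR t ht hct i).2 hj2
    have h2 := (hR t' ht' hct' i).1 h1
    have h3 : j ≤ (τ i : ℕ) := Nat.find_min' hex ⟨(τ i).2, by rw [← hτ i]; exact hcon⟩
    have h4 : (k b).slope ⟨j, hj1⟩ ≤ (k b).slope (τ i) := hk b (by
      rw [Fin.le_def]; exact h3)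
    rw [← hτ i] at h4
    exact absurd h2 (not_lt.2 h4)
  have h1 : ∑ t ∈ S, c t * t l = Cc * s l := by
    rw [hCc, Finset.sum_mul]
    refine Finset.sum_congr rfl fun t ht => ?_
    rcases Nat.eq_zero_or_pos (c t) with h0 | h0
    · rw [h0, zero_mul, zero_mul]
    · rw [le_antisymm (hle s hs hcs t ht h0 l) (hle t ht h0 s hs hcs l)]
  have h2 := hval l
  rw [h1, mul_comm, pow_mul] at h2
  exact (pow_left_inj₀ zero_le zero_le hC.ne').1 h2

end Pool.Agent.Helper71.C2
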