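import Pool.Agent.Helper71.C2.Eig
import Pool.Agent.Helper71.C2.Ordm
import Pool.Agent.Helper35.GT.Part1b

/-!
# C2: the Galois coniveau is the Hodge coniveau if and only if there is an ordinary place
-/

set_option autoImplicit false

namespace Pool.Agent.Helper71.C2

open Polynomial Pool.Agent.Helper48.SP Pool.Agent.Helper48.GC8 Pool.Agent.Helper35.GT Finset

variable {B : Type} [Fintype B] [DecidableEq B] {k : B → Blk} {f₀ : ℕ}

private theorem norm_d {𝓕 : Set (Frob k)} (hS : IsSystem f₀ 𝓕) {z : Frob k} (hz : z ∈ 𝓕)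
    {d : Ind k → ℂ} (hd : ∀ b, blockPoly z.2 b = ∏ j, (X - C (d ⟨b, j⟩))) (l : Ind k) :
    ‖d l‖ ^ 2 = (z.1 : ℝ) ^ (k l.1).wt := by
  refine hS.pure z hz l.1 (d l) ?_
  rw [hd, mem_roots (Finset.prod_ne_zero_iff.2 fun y _ => X_sub_C_ne_zero _), IsRoot, eval_prod]
  exact Finset.prod_eq_zero (mem_univ l.2) (by simp)

private theorem q_ne {𝓕 : Set (Frob k)} (hS : IsSystem f₀ 𝓕) {z : Frob k} (hz : z ∈ 𝓕) : z.1 ≠ 0 := by
  obtain ⟨p, f, hp, hf1, hf2, hzp⟩ := hS.bounded z hz
  rw [hzp]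
  exact pow_ne_zero _ hp.ne_zero

private theorem d_ne {𝓕 : Set (Frob k)} (hS : IsSystem f₀ 𝓕) {z : Frob k} (hz : z ∈ 𝓕)
    {d : Ind k → ℂ} (hd : ∀ b, blockPoly z.2 b = ∏ j, (X - C (d ⟨b, j⟩))) (l : Ind k) :
    d l ≠ 0 := by
  intro h
  have h1 := norm_d hS hz hd l
  rw [h, norm_zero] at h1
  exact pow_ne_zero (k l.1).wt (Nat.cast_ne_zero.2 (q_ne hS hz) : (z.1 : ℝ) ≠ 0)
    (by rw [← h1]; norm_num)

private theorem d_int {𝓕 : Set (Frob k)} (hS : IsSystem f₀ 𝓕) {z : Frob k} (hz : z ∈ 𝓕)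
    {d : Ind k → ℂ} (hd : ∀ b, blockPoly z.2 b = ∏ j, (X - C (d ⟨b, j⟩))) (l : Ind k) :
    IsIntegral ℤ (d l) := by
  obtain ⟨P, hP, -⟩ := hS.above z hz l.1
  have hm : P.Monic := by
    refine monic_of_injective (f := Int.castRingHom ℂ) Int.cast_injective ?_
    rw [hP]
    exact Matrix.charpoly_monic _
  refine ⟨P, hm, ?_⟩
  have h1 : (P.map (Int.castRingHom ℂ)).eval (d l) = 0 := by
    rw [hP, hd, eval_prod]
    exact Finset.prod_eq_zero (mem_univ l.2) (by simp)
  rw [eval_map] at h1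
  exact h1

private theorem conj_data {z : Frob k} {h h' N : Matrix (Ind k) (Ind k) ℂ} {d : Ind k → ℂ}
    (hh' : h' * h = 1) (hM : z.2 * h = h * (Matrix.diagonal d * N)) :
    h' * z.2 = Matrix.diagonal d * N * h' := by
  have h1 : h * h' = 1 := mul_eq_one_comm.1 hh'
  calc h' * z.2 = h' * (z.2 * h) * h' := by
        rw [Matrix.mul_assoc, Matrix.mul_assoc z.2, h1, Matrix.mul_one]
    _ = h' * (h * (Matrix.diagonal d * N)) * h' := by rw [hM]
    _ = Matrix.diagonal d * N * h' := by rw [← Matrix.mul_assoc h' h, hh', Matrix.one_mul]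

/-- A subspace of Hodge coniveau `ν` is effective after the twist by `ν`. -/
theorem effective_of_hodge (hk : ∀ b, IsSym (k b)) {𝓕 : Set (Frob k)} {S : Finset (Ind k → ℕ)}
    (hS : IsHodgeSystem f₀ 𝓕 S) {m i ν : ℕ} {U : Submodule ℂ ((Fin m → Ind k) → ℂ)}
    (hU : IsHodge 𝓕 S m i ν U) : IsEffective 𝓕 m i ν U where
  degree := hU.degree
  stable := hU.stable
  integral := by
    classical
    intro z hz u hu hu0 β hβ
    obtain ⟨d, ⟨hD, hd, h, h', N, hh, hh', hN, hc, hM⟩, hall, -⟩ := hS.newton z hz _ hS.self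
    have hq0 : (z.1 : ℂ) ≠ 0 := Nat.cast_ne_zero.2 (q_ne hS.toIsSystem hz)
    have hcd := conj_data hh' hM
    have hrho : (rho univ h' * rho univ h : Module.End ℂ (Ten (Fin m) (Ind k))) = 1 := by
      rw [← rho_mul, hh', rho_one]
    have hrho' : (rho univ h * rho univ h' : Module.End ℂ (Ten (Fin m) (Ind k))) = 1 := by
      rw [← rho_mul, mul_eq_one_comm.1 hh', rho_one]
    have hu' : rho univ h' u ∈ U :=
      stab_inv (f := rho univ h) (fun w hw => stab hU.stable hh hw) hrho hu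
    have hu'0 : rho univ h' u ≠ 0 := by
      intro h0
      have h1 : (rho univ h * rho univ h' : Module.End ℂ (Ten (Fin m) (Ind k))) u = u := by
        rw [hrho', Module.End.one_apply]
      rw [Module.End.mul_apply, h0, map_zero] at h1
      exact hu0 h1.symm
    have heig : rho univ (Matrix.diagonal d * N) (rho univ h' u) = β • rho univ h' u := by
      have h1 : rho univ z.2 u = β • u := by rw [← tensorPower_eq]; exact hβ
      rw [← Module.End.mul_apply, ← rho_mul, ← hcd, rho_mul, Module.End.mul_apply, h1, map_smul]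
    obtain ⟨y, hy⟩ := Function.ne_iff.1 hu'0
    have hy' : rho univ h' u y ≠ 0 := hy
    have hdne := d_ne hS.toIsSystem hz hd
    have hβy : ∏ j, d (y j) = β := eig_word hdne hN hc heig hy'
    have hβ0 : β ≠ 0 := by
      rw [← hβy]
      exact Finset.prod_ne_zero_iff.2 fun j _ => hdne _
    have hint : IsIntegral ℤ (β / (z.1 : ℂ) ^ ν) := by
      refine isIntegral_iff.2 fun A => ?_
      have hvq0 : 0 < A.valuation (z.1 : ℂ) := zero_lt_iff.2 ((Valuation.ne_zero_iff _).2 hq0)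
      rw [map_div₀, map_pow, div_le_one₀ (pow_pos hvq0 _)]
      rcases (show A.valuation (z.1 : ℂ) ≤ 1 by
        have := int_le_one A.valuation (z.1 : ℤ)
        exact_mod_cast this).lt_or_eq with hlt | heq
      · obtain ⟨c, hC, hval⟩ := hall A hlt
        set Cc := ∑ t ∈ S, c t with hCc
        have h1 : A.valuation β ^ Cc =
            A.valuation (z.1 : ℂ) ^ (∑ t ∈ S, c t * ∑ j, t (y j)) := by
          rw [← hβy, map_prod, ← Finset.prod_pow]
          have h2 : ∀ j ∈ (univ : Finset (Fin m)), A.valuation (d (y j)) ^ Cc =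
              A.valuation (z.1 : ℂ) ^ (∑ t ∈ S, c t * t (y j)) := fun j _ => hval (y j)
          rw [Finset.prod_congr rfl h2, Finset.prod_pow_eq_pow_sum, Finset.sum_comm]
          congr 1
          exact Finset.sum_congr rfl fun t _ => by rw [Finset.mul_sum]
        have h3 : Cc * ν ≤ ∑ t ∈ S, c t * ∑ j, t (y j) := by
          rw [hCc, Finset.sum_mul]
          exact Finset.sum_le_sum fun t ht => Nat.mul_le_mul_left _ (hU.hodge t ht _ hu' y hy')
        have h4 : A.valuation β ^ Cc ≤ (A.valuation (z.1 : ℂ) ^ ν) ^ Cc := by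
          rw [h1, ← pow_mul, mul_comm ν]
          exact (pow_le_pow_iff_right_of_lt_one₀ hvq0 hlt).2 h3
        exact (pow_le_pow_iff_left₀ zero_le zero_le hC.ne').1 h4
      · rw [heq, one_pow, ← hβy]
        exact isIntegral_iff.1 (IsIntegral.prod _ fun j _ => d_int hS.toIsSystem hz hd (y j)) A
    refine ⟨hint, ?_⟩
    have hdeg := hU.degree _ hu' y hy'
    have hνi : ν ≤ i := by
      refine (hU.hodge _ hS.self _ hu' y hy').trans ?_
      rw [← hdeg]
      refine Finset.sum_le_sum fun p _ => ?_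
      have := (hk (y p).1).dual (y p).2
      show (k (y p).1).slope (y p).2 ≤ _
      omega
    have hnorm : β * (starRingEnd ℂ) β = (z.1 : ℂ) ^ i := by
      rw [Complex.mul_conj, Complex.normSq_eq_norm_sq, ← hβy, norm_prod, ← Finset.prod_pow,
        Finset.prod_congr rfl fun j _ => norm_d hS.toIsSystem hz hd (y j),
        Finset.prod_pow_eq_pow_sum, hdeg]
      push_cast
      rfl
    have h5 : (z.1 : ℂ) ^ (i - ν) / β = (starRingEnd ℂ) (β / (z.1 : ℂ) ^ ν) := by
      rw [map_div₀, map_pow, Complex.conj_natCast, div_eq_div_iff hβ0 (pow_ne_zero _ hq0),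
        ← pow_add, Nat.sub_add_cancel hνi, mul_comm, hnorm]
    rw [h5]
    exact hint.map (RingHom.toIntAlgHom (starRingEnd ℂ))

/-- If one Frobenius is ordinary, a subspace which is effective after the twist by `ν` has Hodge
coniveau `ν`. -/
theorem hodge_of_effective (hk : ∀ b, IsSym (k b)) {𝓕 : Set (Frob k)} {S : Finset (Ind k → ℕ)}
    (hS : IsHodgeSystem f₀ 𝓕 S) {z : Frob k} (hz : z ∈ 𝓕) (ho : IsOrdinary z) {m i ν : ℕ}
    {U : Submodule ℂ ((Fin m → Ind k) → ℂ)} (hU : IsEffective 𝓕 m i ν U) :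
    IsHodge 𝓕 S m i ν U where
  degree := hU.degree
  stable := hU.stable
  hodge := by
    classical
    intro s hs u hu y hy
    obtain ⟨d, ⟨hD, hd, h, h', N, hh, hh', hN, hc, hM⟩, -, A, hA, c, hc', hcs⟩ :=
      hS.newton z hz s hs
    have hq0 : (z.1 : ℂ) ≠ 0 := Nat.cast_ne_zero.2 (q_ne hS.toIsSystem hz)
    have hvq0 : 0 < A.valuation (z.1 : ℂ) := zero_lt_iff.2 ((Valuation.ne_zero_iff _).2 hq0)
    have hsl := slopes_eq (fun b => (hk b).mono) hS hz ho hd hA hc' hs hcs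
    have hrho : (rho univ h' * rho univ h : Module.End ℂ (Ten (Fin m) (Ind k))) = 1 := by
      rw [← rho_mul, hh', rho_one]
    have hcd := conj_data hh' hM
    have hDN : h' * z.2 * h = Matrix.diagonal d * N := by
      rw [hcd, Matrix.mul_assoc, hh', Matrix.mul_one]
    have hst : ∀ w ∈ U, rho univ h w ∈ U := fun w hw => stab hU.stable hh hw
    obtain ⟨v, hvU, hv0, hv⟩ := exists_eig hN hc (fun w hw => stab hU.stable hD hw)
      (fun w hw => by
        rw [← hDN, rho_mul, rho_mul, Module.End.mul_apply, Module.End.mul_apply]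
        refine stab_inv (f := rho univ h) hst hrho ?_
        rw [← tensorPower_eq]
        exact hU.stable z hz _ (hst w hw)) hu hy
    set β := ∏ j, d (y j) with hβ
    have hw0 : rho univ h v ≠ 0 := by
      intro h0
      have h1 : (rho univ h' * rho univ h : Module.End ℂ (Ten (Fin m) (Ind k))) v = v := by
        rw [hrho, Module.End.one_apply]
      rw [Module.End.mul_apply, h0, map_zero] at h1
      exact hv0 h1.symm
    have heig : tensorPower z.2 (rho univ h v) = β • rho univ h v := by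
      rw [tensorPower_eq, ← Module.End.mul_apply, ← rho_mul, hM, rho_mul, Module.End.mul_apply, hv,
        map_smul]
    have hint := (hU.integral z hz _ (hst v hvU) hw0 β heig).1
    have h1 := isIntegral_iff.1 hint A
    rw [map_div₀, map_pow, div_le_one₀ (pow_pos hvq0 _), hβ, map_prod,
      Finset.prod_congr rfl fun j _ => hsl (y j), Finset.prod_pow_eq_pow_sum] at h1
    exact (pow_le_pow_iff_right_of_lt_one₀ hvq0 hA).1 h1

theorem hodge_le_galois (hk : ∀ b, IsSym (k b)) {𝓕 : Set (Frob k)} {S : Finset (Ind k → ℕ)}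
    (hS : IsHodgeSystem f₀ 𝓕 S) (m i ν : ℕ) : hodgeConiveau 𝓕 S m i ν ≤ galoisConiveau 𝓕 m i ν :=
  sSup_le_sSup fun _ hU => effective_of_hodge hk hS hU

theorem galois_le_hodge (hk : ∀ b, IsSym (k b)) {𝓕 : Set (Frob k)} {S : Finset (Ind k → ℕ)}
    (hS : IsHodgeSystem f₀ 𝓕 S) (ho : ∃ z ∈ 𝓕, IsOrdinary z) (m i ν : ℕ) :
    galoisConiveau 𝓕 m i ν ≤ hodgeConiveau 𝓕 S m i ν := by
  obtain ⟨z, hz, ho⟩ := ho
  exact sSup_le_sSup fun _ hU => hodge_of_effective hk hS hz ho hU

theorem ordinary_of_le (hk : ∀ b, IsSym (k b)) {𝓕 : Set (Frob k)} {S : Finset (Ind k → ℕ)}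
    (hS : IsHodgeSystem f₀ 𝓕 S)
    (h : ∀ m i ν, galoisConiveau 𝓕 m i ν ≤ hodgeConiveau 𝓕 S m i ν) : ∃ z ∈ 𝓕, IsOrdinary z := by
  by_contra hcon
  push Not at hcon
  obtain ⟨U, hU, u, hu, y, hy, hlt⟩ := exists_exotic hk hS.toIsSystem hcon (le_max_left 2 f₀)
    (le_max_right 2 f₀)
  have h1 : u ∈ hodgeConiveau 𝓕 S _ _ _ :=
    h _ _ _ ((le_sSup (show U ∈ {U | IsEffective 𝓕 _ _ _ U} from hU) : U ≤ galoisConiveau 𝓕 _ _ _) hu)
  have h2 : ∀ m i ν, hodgeConiveau 𝓕 S m i ν ≤ hodgeFil k m ν := fun m i ν =>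
    sSup_le fun U' hU' w hw y hy => hU'.hodge _ hS.self w hw y hy
  exact absurd (h2 _ _ _ h1 y hy) (not_le.2 hlt)

/-- **Generalized Tate = generalized Hodge + an ordinary place.** -/
theorem main (hk : ∀ b, IsSym (k b)) {𝓕 : Set (Frob k)} {S : Finset (Ind k → ℕ)}
    (hS : IsHodgeSystem f₀ 𝓕 S) (N : ∀ m : ℕ, ℕ → ℕ → Submodule ℂ ((Fin m → Ind k) → ℂ))
    (hN : ∀ m i ν, N m i ν ≤ hodgeConiveau 𝓕 S m i ν) :
    (∀ m i ν, N m i ν = galoisConiveau 𝓕 m i ν) ↔
      (∀ m i ν, N m i ν = hodgeConiveau 𝓕 S m i ν) ∧ ∃ z ∈ 𝓕, IsOrdinary z := by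
  constructor
  · intro h
    have ho := ordinary_of_le hk hS fun m i ν => by rw [← h]; exact hN m i ν
    exact ⟨fun m i ν => le_antisymm (hN m i ν) (by
      rw [h]; exact hodge_le_galois hk hS m i ν), ho⟩
  · rintro ⟨h, ho⟩ m i ν
    rw [h]
    exact le_antisymm (hodge_le_galois hk hS m i ν) (galois_le_hodge hk hS ho m i ν)

end Pool.Agent.Helper71.C2
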